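import Pool.Agent.H36.NV.Nfa

/-!
# Nearly affine labels of the place three near almost every window

`naf_near`: `NafNear` from the statement `NvOneStmt` of one scale.
-/

set_option autoImplicit false

namespace Pool.NV36

open Finset Real MeasureTheory
open Pool.Agent.H49.Ent Pool.Agent.H32.Dense Pool.STK Pool.KA Pool.KSAT Pool.K2S Pool.PB Pool.S6C
open Pool.GEN Pool.CHT Pool.ISO Pool.D2R Pool.GRW Pool.NV24 Pool.PKG Pool.RCD
open Pool.CDX (AffL AfG)
open Pool.NV71 (NAf)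
open Pool.T4C72 (WinbAt winbAt_ex)
open Pool.TOP (TopS)

/-- The three windows. -/
noncomputable def vv (v : ℝ) (k : ℕ) : ℝ := if k = 0 then 0 else if k = 1 then v else 1

theorem vv_zero (v : ℝ) : vv v 0 = 0 := if_pos rfl

theorem vv_one (v : ℝ) : vv v 1 = v := by
  unfold vv
  rw [if_neg (by norm_num), if_pos rfl]

theorem vv_two (v : ℝ) : vv v 2 = 1 := by
  unfold vv
  rw [if_neg (by norm_num), if_neg (by norm_num)]

theorem vv_bd {v : ℝ} (h0 : 0 ≤ v) (h1 : v ≤ 1) (k : ℕ) : 0 ≤ vv v k ∧ vv v k ≤ 1 := by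
  unfold vv
  split_ifs
  · exact ⟨le_rfl, zero_le_one⟩
  · exact ⟨h0, h1⟩
  · exact ⟨zero_le_one, le_rfl⟩

/-- **The constants.** -/
theorem nf_cst {s κ : ℝ} (hs : 1 < s) (hκ : 0 < κ) (Cn : ℕ) : ∃ v ν μ η : ℝ,
    0 < v ∧ v ≤ 1 / 2 ∧ s * v = (s - 1) / 2 ∧ 0 < ν ∧ ν ≤ 1 ∧ 0 < μ ∧ μ ≤ 1 ∧ 0 < η ∧
    2 * η + ν + μ ≤ s - 1 ∧ 2 * η + ν + μ ≤ (s - 1) * v ∧ 2 * η + ν + μ ≤ (s - 1) / 2 ∧
    Cn * μ + μ ≤ ν ∧ Cn * μ + μ ≤ κ := by
  have hs0 : 0 < s := by linarith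
  obtain ⟨v, hv⟩ : ∃ v, v = (s - 1) / (2 * s) := ⟨_, rfl⟩
  have hv0 : 0 < v := by
    rw [hv]
    exact div_pos (by linarith) (by linarith)
  have hsv : s * v = (s - 1) / 2 := by
    rw [hv]
    field_simp
  have hv1 : v ≤ 1 / 2 := by
    rw [hv, div_le_div_iff₀ (by linarith) (by norm_num)]
    linarith
  obtain ⟨x, hx⟩ : ∃ x, x = (s - 1) * v := ⟨_, rfl⟩
  have hx0 : 0 < x := by rw [hx]; exact mul_pos (by linarith) hv0
  have hx1 : x ≤ (s - 1) / 2 := by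
    rw [hx]
    nlinarith
  have hC : (0 : ℝ) ≤ Cn := Nat.cast_nonneg _
  obtain ⟨ν, hν⟩ : ∃ ν, ν = min (x / 4) 1 := ⟨_, rfl⟩
  have hν0 : 0 < ν := by rw [hν]; positivity
  have hν1 : ν ≤ x / 4 := by rw [hν]; exact min_le_left _ _
  have hν2 : ν ≤ 1 := by rw [hν]; exact min_le_right _ _
  obtain ⟨y, hy⟩ : ∃ y, y = min ν κ := ⟨_, rfl⟩
  have hy0 : 0 < y := by rw [hy]; exact lt_min hν0 hκ
  have hy1 : y ≤ ν := by rw [hy]; exact min_le_left _ _
  have hy2 : y ≤ κ := by rw [hy]; exact min_le_right _ _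
  obtain ⟨μ, hμ⟩ : ∃ μ, μ = y / (Cn + 1) := ⟨_, rfl⟩
  have hμ0 : 0 < μ := by rw [hμ]; positivity
  have hμ1 : (Cn + 1) * μ = y := by rw [hμ]; field_simp
  have hμ2 : μ ≤ y := by
    have : 0 ≤ Cn * μ := by positivity
    linarith
  refine ⟨v, ν, μ, x / 8, hv0, hv1, hsv, hν0, hν2, hμ0, by linarith, by linarith, ?_, ?_, ?_, ?_,
    ?_⟩
  · linarith
  · rw [← hx]
    linarith
  · linarith
  · linarith
  · linarith

/-- **Nearly affine labels of the place three** near almost every window. -/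
theorem naf_near {n : ℕ} (hN : ∀ D, NvOneStmt n D) : NafNear n := by
  intro hn S P r P' Λ PB PQ H hTop hF o G hG hGs h2 haf
  obtain ⟨al, g₀, s₀, d₀, e₀, K₀, N₀, hal, hg₀, hcl⟩ := H.toPk.cl
  have htm : TmC S 6 := Pool.GEN.N83.clx_tmc hcl
  have htmh : TmH S := tmH_of_tmC (by norm_num) htm
  have hact := Pool.OWN72.gs_act H.toPk o
  filter_upwards [haf, H.wnG_ae hTop hF hG.measurableSet hGs] with g kaf kW hg hs1 hs12 hs23 κ hκ
  obtain ⟨haf1, haf2⟩ := kaf hg hs1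
  obtain ⟨θ₂, e₂, Eb, P₂, S₀, hT, hL, hS₀, W⟩ := kW hg
  obtain ⟨D, hD, hwb⟩ := winbAt_ex n 3 S₀ (by norm_num) hS₀
  obtain ⟨CB, hCB, hwb⟩ := hwb D le_rfl D le_rfl
  obtain ⟨Cn, hcls⟩ := naf_cls (hN D)
  obtain ⟨s, hs⟩ : ∃ s, s = deriv (fun a => LvL hn P P' o 1 a a) g := ⟨_, rfl⟩
  rw [← hs] at hs1 hs12
  rw [← hs12] at hs23
  have hEb := (hT 3 (by norm_num) (by omega)).2.1
  obtain ⟨v, ν, μ, η, hv0, hv1, hsv, hν0, hν1, hμ0, hμ1, hη, c1, c2, c3, c4, c5⟩ :=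
    nf_cst hs1 hκ Cn
  have hvb := vv_bd hv0.le (show v ≤ 1 by linarith)
  obtain ⟨S₁, -, W⟩ := W 1 0 (fun _ => 0) (fun _ => 0) le_rfl
    (fun k hk => absurd hk (Nat.not_lt_zero _)) (min (κ / 2) 1) (by positivity)
  obtain ⟨q₁, hq₁, W⟩ := W 1 3 (vv v) le_rfl (fun k _ => ⟨by linarith [(hvb k).1], (hvb k).2⟩) η hη
  obtain ⟨ρ₁, hρ₁, haf1⟩ := haf1 (μ / 8) (by linarith)
  obtain ⟨ρ₂, hρ₂, haf2⟩ := haf2 (μ / 8) (by linarith)
  refine ⟨min q₁ (min (ρ₁ / 3) (ρ₂ / 3)), by positivity, fun q hq hqρ u hu => ?_⟩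
  have r1 : q < q₁ := hqρ.trans_le (min_le_left _ _)
  have r2 : q < ρ₁ / 3 := hqρ.trans_le ((min_le_right _ _).trans (min_le_left _ _))
  have r3 : q < ρ₂ / 3 := hqρ.trans_le ((min_le_right _ _).trans (min_le_right _ _))
  obtain ⟨b1, b2, hnb, hls, W⟩ := W q u hq r1 (by rw [one_mul]; exact hu)
  obtain ⟨t, -, t1, t2, -, Wc⟩ := W ∅ measure_empty
  have hu' := abs_le.1 hu
  have t2' : t ≤ u + q := by
    have : min (κ / 2) 1 * q ≤ 1 * q := mul_le_mul_of_nonneg_right (min_le_right _ _) hq.le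
    linarith
  have t2'' : t ≤ u + κ / 2 * q := by
    have : min (κ / 2) 1 * q ≤ κ / 2 * q := mul_le_mul_of_nonneg_right (min_le_left _ _) hq.le
    linarith
  have hκq : 0 < κ * q := by positivity
  have hμq : 0 < μ * q := by positivity
  have hμq1 : μ * q ≤ 1 * q := mul_le_mul_of_nonneg_right hμ1 hq.le
  have hνq : 0 < ν * q := by positivity
  have hνq1 : ν * q ≤ 1 * q := mul_le_mul_of_nonneg_right hν1 hq.le
  have hηq : 0 < η * q := by positivity
  -- the windows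
  obtain ⟨ow, how⟩ : ∃ ow : ℕ → ℝ, ow = fun k => t + vv v k * q := ⟨_, rfl⟩
  have o0 : ow 0 = t := by rw [how]; simp only [vv_zero]; ring
  have o1 : ow 1 = t + v * q := by rw [how]; simp only [vv_one]
  have o2 : ow 2 = t + q := by rw [how]; simp only [vv_two]; ring
  have hvq0 : 0 < v * q := by positivity
  have hvq1 : v * q ≤ 1 / 2 * q := mul_le_mul_of_nonneg_right hv1 hq.le
  have hob : ∀ k, t ≤ ow k ∧ ow k ≤ t + q := fun k => by
    obtain ⟨h1, h2⟩ := hvb k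
    have h3 : vv v k * q ≤ 1 * q := mul_le_mul_of_nonneg_right h2 hq.le
    have h4 : 0 ≤ vv v k * q := by positivity
    rw [how]
    simp only
    constructor <;> linarith
  have hbx : ∀ k, |ow k - g| ≤ 3 * 1 * q := fun k => by
    obtain ⟨h1, h2⟩ := hob k
    rw [abs_le]
    constructor <;> linarith
  have hW : ∀ k < 3, ow k ∈ G ∧ PtI S (P' o.2) (tht o.2) (cc hn o.1.1) 3 (LvL hn P P' o 3) S₀
      (Eb 3) (ow k) (ow k) := fun k hk => by
    obtain ⟨-, h1, h2⟩ := Wc k hk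
    rw [how]
    exact ⟨h1, (h2 3 (by norm_num) (by omega)).1⟩
  -- the levels
  have hroom : ∀ j ≤ 3, ∀ k, LvL hn P P' o j (ow k) (ow k) + Eb 3 + 6 * q < 1 := fun j hj k => by
    have h1 := (hls 3 (by norm_num) (by omega)).2.2 j hj (ow k) (hbx k)
    linarith
  have hlv : ∀ j ≤ 3, ∀ k l, |LvL hn P P' o j (ow k) (ow k) - LvL hn P P' o j (ow l) (ow l) -
      deriv (fun a => LvL hn P P' o j a a) g * (ow k - ow l)| ≤ 2 * (η * q) := by
    intro j hj k l
    have h1 := abs_le.1 (hnb.dL j (by omega) (ow k) (hbx k))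
    have h2 := abs_le.1 (hnb.dL j (by omega) (ow l) (hbx l))
    have h3 : SlL hn P P' o g j = deriv (fun a => LvL hn P P' o j a a) g := rfl
    rw [h3] at h1 h2
    rw [abs_le]
    constructor <;> linarith [h1.1, h1.2, h2.1, h2.2]
  have hL0 : LvL hn P P' o 0 (ow 0) (ow 0) = ow 0 := by
    have hw := hGs (hW 0 (by norm_num)).1
    rw [gs_lvl H.toPk hTop hF hw (by omega)]
    exact Pool.OWN72.vse_one H.toPk o hw.1.1.1.le hw.1.1.2.1
  have hle : ∀ j ≤ 3, ow 0 ≤ LvL hn P P' o j (ow 0) (ow 0) := fun j hj =>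
    le_lvl H.toPk hTop hF (hGs (hW 0 (by norm_num)).1) (by omega)
  have m1 : 2 * (η * q) + ν * q + μ * q ≤ (s - 1) * q := by
    have := mul_le_mul_of_nonneg_right c1 hq.le
    linarith
  have m2 : 2 * (η * q) + ν * q + μ * q ≤ (s - 1) * (v * q) := by
    have := mul_le_mul_of_nonneg_right c2 hq.le
    linarith
  have m3 : 2 * (η * q) + ν * q + μ * q ≤ (s - 1) / 2 * q := by
    have := mul_le_mul_of_nonneg_right c3 hq.le
    linarith
  have m4 : Cn * (μ * q) + μ * q ≤ ν * q := by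
    have := mul_le_mul_of_nonneg_right c4 hq.le
    linarith
  have m5 : Cn * (μ * q) + μ * q ≤ κ * q := by
    have := mul_le_mul_of_nonneg_right c5 hq.le
    linarith
  have m6 : s * (v * q) = (s - 1) / 2 * q := by rw [← mul_assoc, hsv]
  have m7 : 0 ≤ Cn * (μ * q) := by positivity
  have l1 := abs_le.1 (hlv 1 (by norm_num) 2 0)
  have l2 := abs_le.1 (hlv 2 (by norm_num) 1 0)
  have l3 := abs_le.1 (hlv 1 (by norm_num) 2 1)
  rw [← hs, o2, o0] at l1
  rw [← hs12, o1, o0] at l2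
  rw [← hs, o2, o1] at l3
  have e1 : t + q - t = q := by ring
  have e2 : t + v * q - t = v * q := by ring
  have e3 : s * (t + q - (t + v * q)) = s * q - s * (v * q) := by ring
  rw [e1] at l1
  rw [e2] at l2
  rw [e3] at l3
  -- the labels
  have lab : ∀ i, (i = 1 ∨ i = 2) → ∀ k < 3, ∀ p : ℝ,
      p ≤ LvL hn P P' o i (ow k) (ow k) - μ / 2 * q → Bas S (fun J F A =>
        ∃ (U : PtT F → MvPolynomial (Option (Fin n)) ℝ)
        (U' : LnT F → MvPolynomial (Option (Fin n)) ℝ),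
        AfP F (cc hn o.1.1) i ⌊ow k * J⌋₊ ⌊p * J⌋₊ A U U') := by
    intro i hi k hk p hp
    obtain ⟨h1, h2⟩ := hob k
    have hk1 : ow k ≤ 1 := (hGs (hW k hk).1).1.1.2.1.le
    have h3 : ∃ b p' : ℝ, b ≤ ow k ∧ LvL hn P P' o i (ow k) (ow k) - μ / 8 * (3 * q) ≤ p' ∧
        AffL S ((range i).image (cc hn o.1.1)) (cc hn o.1.1 i) b p' := by
      rcases hi with rfl | rfl
      · exact haf1 (3 * q) (by linarith) (by linarith) (ow k) (hW k hk).1 (by linarith)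
          (by linarith)
      · exact haf2 (3 * q) (by linarith) (by linarith) (ow k) (hW k hk).1 (by linarith)
          (by linarith)
    obtain ⟨b, p', h4, h5, h6⟩ := h3
    exact afP_bas h6 h4 hk1 (by linarith)
  -- the balls
  have hbal : ∀ k ≤ 1, BalD S (P' o.2) (tht o.2) (cc hn o.1.1) 3 (LvL hn P P' o 3) (t + 2 * q)
      (ow k) S₀ (Eb 3) := by
    intro k hk
    obtain ⟨h1, h2⟩ := hob k
    obtain ⟨-, ρ, vs', e', e₀', E', sg', Q', h3, h4, h5⟩ := hW k (by omega)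
    refine ⟨by linarith, ⟨ρ, vs', e', e₀', E', sg', Q', h3, h4⟩, fun l hl => ?_⟩
    have h6 : lvN (P' o.2) (cc hn o.1.1) 3 (LvL hn P P' o 3) l (ow k) (ow k) =
        LvL hn P P' o l (ow k) (ow k) := by
      unfold lvN
      split_ifs with h7
      · rw [LvL_lt o (by omega)]
      · have : l = 3 := by omega
        rw [this]
    rw [h6]
    have := hroom l hl k
    linarith
  obtain ⟨K₁, b, hK₁, hwin⟩ := hwb (S := S) (P := P' o.2) (θ := tht o.2) (c := cc hn o.1.1)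
    (Pt := LvL hn P P' o 3) (a := t + 2 * q) (Eb := Eb 3) (ηm := μ / 8 * q) (o := ow)
    (η := fun _ => μ / 8 * q) (σ := fun _ => μ / 8 * q) (r₀ := fun _ => q / 4) 1 0 (H.cht o.2)
    (tht_pos o.2) htmh ((cc_inj hn o.1.1).mono fun x hx => by
      rw [Set.mem_Iio] at hx ⊢
      omega) (H.lawL o 3) hEb.le hbal (fun k _ => ⟨by positivity, by positivity, le_rfl,
        by positivity, le_rfl⟩)
  have hlvN : ∀ k, ∀ l ≤ 3, lvN (P' o.2) (cc hn o.1.1) 3 (LvL hn P P' o 3) l (ow k) (ow k) =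
        LvL hn P P' o l (ow k) (ow k) := by
    intro k l hl
    unfold lvN
    split_ifs with h7
    · rw [LvL_lt o (by omega)]
    · have : l = 3 := by omega
      rw [this]
  have hlt : ow 2 < 1 := (hGs (hW 2 (by norm_num)).1).1.1.2.1
  have hob0 := (hob 0).1
  have hg6 : 6 * q ≤ g := by linarith
  have x1 := hle 1 (by norm_num)
  have x2 := hle 2 (by norm_num)
  have h00 := hlvN 0 0 (by norm_num)
  have h01 := hlvN 0 1 (by norm_num)
  have h02 := hlvN 0 2 (by norm_num)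
  have h03 := hlvN 0 3 le_rfl
  have h11 := hlvN 1 1 (by norm_num)
  rw [hL0] at h00
  have hs1q : 0 < (s - 1) / 2 * q := mul_pos (by linarith) hq
  have hnaf := hcls (p := LvL hn P P' o 3 (ow 0) (ow 0)) (lam := κ * q) (mu := μ * q)
    (nu := ν * q) (δ := μ / 4 * q) (t3 := ow 2)
    (p1 := LvL hn P P' o 1 (ow 0) (ow 0) - μ / 2 * q)
    (p2 := LvL hn P P' o 2 (ow 0) (ow 0) - μ / 2 * q)
    (h1 := LvL hn P P' o 1 (ow 2) (ow 2) - μ / 2 * q)
    (h2 := LvL hn P P' o 2 (ow 1) (ow 1) - μ / 2 * q) (Eb := Eb 3) (et := μ / 8 * q)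
    (sg := μ / 8 * q) htm hact ((cc_inj hn o.1.1).mono fun x hx => by
      rw [Set.mem_Iio] at hx ⊢
      omega) hD le_rfl hK₁ hwin (fun k hk => ?_) (by linarith) (by linarith) (by linarith) hlt
    (lab 1 (Or.inl rfl) 0 (by norm_num) _ le_rfl) (lab 2 (Or.inr rfl) 0 (by norm_num) _ le_rfl)
    (lab 1 (Or.inl rfl) 2 (by norm_num) _ le_rfl) (lab 2 (Or.inr rfl) 1 (by norm_num) _ le_rfl)
    (by positivity) (by linarith [(hob 0).1]) hμq hνq (by linarith) (by linarith) ?_ (by linarith)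
    ?_ ?_ ?_ ?_ ?_ ?_ (fun l hl => ?_) (by positivity) ?_ ?_ ?_ (by linarith) (by linarith)
    (by linarith) ?_
  · refine ⟨ow 0, (hW 0 (by norm_num)).1, by linarith, by linarith, hnaf⟩
  · have := (hob k).2
    rcases Nat.lt_or_ge k 1 with h | h
    · obtain rfl : k = 0 := by omega
      linarith
    · obtain rfl : k = 1 := by omega
      linarith
  · rw [o1, o0]
    linarith
  · rw [h00]
    linarith
  · rw [h00]
    linarith
  · rw [h01]
    linarith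
  · rw [h01]
    linarith
  · rw [h02]
    linarith
  · rw [h02]
    linarith
  · rw [hlvN 0 l hl]
    have := hroom l hl 0
    linarith
  · rw [o2, o0]
    linarith
  · rw [o1, o0]
    linarith
  · rw [h11, o2, o1, o0]
    linarith
  · rw [h03]
    linarith

end Pool.NV36
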