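import Pool.Agent.H24.NV.One
import Pool.Agent.H91.NVA.Fre
import Pool.Agent.H71.NV.Nvb
import Pool.Agent.H72.T4C.Wnt

/-!
# The nearly affine label of the place three, in a class

`nv_nat`: the numbers of one scale. `afP_of`, `afP_bas`: affine closed labels from labels of degree
at most one. `naf_cls`: a nearly affine label of the place three in a class, from `NvOneStmt`, the
balls of two windows and affine labels of the places one and two.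
-/

set_option autoImplicit false

namespace Pool.NV36

open Finset Real MvPolynomial
open Pool.Agent.H49.Ent Pool.Agent.H32.Dense Pool.STK Pool.KA Pool.KSAT Pool.K2S Pool.PB Pool.S6C
open Pool.GEN Pool.CHT Pool.ISO Pool.D2R Pool.GRW Pool.NV24
open Pool.FLF (Fam.sub)
open Pool.GRD (LbP)
open Pool.CDX (AffL)
open Pool.NV71 (NAf)

/-- **The numbers of one scale.** -/
theorem nv_nat {J K Cn : ℕ} {t t2 t3 et sg mu nu lam p1 p2 h1 h2 Eb δ B1 : ℝ} {A : ℕ → ℝ}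
    {g g' : ℕ → ℕ} (hJ : (Cn : ℝ) + 4 ≤ δ * J) (ht : 0 ≤ t) (ht2 : 0 ≤ t2)
    (ht3 : 0 ≤ t3) (hmu : 0 < mu) (hnu : 0 < nu)
    (hp1 : 0 ≤ p1) (hp2 : 0 ≤ p2)
    (hg : ∀ l ≤ 3, (A l - sg) * J ≤ g l ∧ (g l : ℝ) ≤ A l * J) (hg' : (g' 1 : ℝ) ≤ B1 * J)
    (a1 : t + δ ≤ A 0 - sg + mu) (a2 : A 0 + δ ≤ t + mu)
    (a3 : p1 ≤ A 1 - sg) (a4 : A 1 + δ ≤ p1 + mu) (a5 : p2 ≤ A 2 - sg) (a6 : A 2 + δ ≤ p2 + mu)
    (a8 : ∀ l ≤ 3, Eb + sg + et + A l + nu ≤ 1) (hE : 0 ≤ Eb + sg + et)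
    (a9 : p1 + t3 + nu + δ ≤ t + h1) (a10 : p2 + t2 + nu + δ ≤ t + h2)
    (a11 : B1 + t3 + nu + δ ≤ t + h1) (a12 : Cn * mu + δ ≤ nu) (a13 : Cn * mu + δ ≤ lam)
    (a14 : 2 ≤ K * mu) (a15 : δ ≤ mu) :
    ⌊t * J⌋₊ ≤ g 0 + ⌊mu * J⌋₊ ∧ g 0 ≤ ⌊t * J⌋₊ + ⌊mu * J⌋₊ ∧ ⌊p1 * J⌋₊ ≤ g 1 ∧
    g 1 ≤ ⌊p1 * J⌋₊ + ⌊mu * J⌋₊ ∧ ⌊p2 * J⌋₊ ≤ g 2 ∧ g 2 ≤ ⌊p2 * J⌋₊ + ⌊mu * J⌋₊ ∧
    (∀ l ≤ 3, ⌊(Eb + sg + et) * J⌋₊ + g l + ⌊nu * J⌋₊ ≤ J) ∧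
    ⌊p1 * J⌋₊ + ⌊t3 * J⌋₊ + ⌊nu * J⌋₊ ≤ ⌊t * J⌋₊ + ⌊h1 * J⌋₊ ∧
    ⌊p2 * J⌋₊ + ⌊t2 * J⌋₊ + ⌊nu * J⌋₊ ≤ ⌊t * J⌋₊ + ⌊h2 * J⌋₊ ∧
    g' 1 + ⌊t3 * J⌋₊ + ⌊nu * J⌋₊ ≤ ⌊t * J⌋₊ + ⌊h1 * J⌋₊ ∧
    Cn * (⌊mu * J⌋₊ + 1) ≤ ⌊nu * J⌋₊ ∧ Cn * (⌊mu * J⌋₊ + 1) ≤ ⌊lam * J⌋₊ ∧
    J ≤ K * ⌊mu * J⌋₊ := by
  have hJ0 : (0 : ℝ) ≤ J := Nat.cast_nonneg J
  have hC0 : (0 : ℝ) ≤ Cn := Nat.cast_nonneg Cn
  have hK0 : (0 : ℝ) ≤ K := Nat.cast_nonneg K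
  have fl : ∀ x : ℝ, 0 ≤ x → (⌊x * J⌋₊ : ℝ) ≤ x * J := fun x hx => Nat.floor_le (by positivity)
  have lf : ∀ x : ℝ, x * J - 1 < (⌊x * J⌋₊ : ℝ) := fun x => by
    have := Nat.lt_floor_add_one (x * J)
    linarith
  have e1 := fl t ht
  have e2 := lf t
  have e3 := fl mu hmu.le
  have e4 := lf mu
  have e5 := fl p1 hp1
  have e6 := lf p1
  have e7 := fl p2 hp2
  have e8 := lf p2
  have e9 := fl nu hnu.le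
  have e10 := lf nu
  have e11 := lf lam
  have e12 := fl t3 ht3
  have e13 := fl t2 ht2
  have e14 := lf h1
  have e15 := lf h2
  have m : ∀ x y : ℝ, x ≤ y → x * J ≤ y * J := fun x y h => mul_le_mul_of_nonneg_right h hJ0
  obtain ⟨g0a, g0b⟩ := hg 0 (by norm_num)
  obtain ⟨g1a, g1b⟩ := hg 1 (by norm_num)
  obtain ⟨g2a, g2b⟩ := hg 2 (by norm_num)
  refine ⟨?_, ?_, ?_, ?_, ?_, ?_, fun l hl => ?_, ?_, ?_, ?_, ?_, ?_, ?_⟩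
  · have := m _ _ a1
    exact_mod_cast (show (⌊t * J⌋₊ : ℝ) ≤ g 0 + ⌊mu * J⌋₊ by linarith)
  · have := m _ _ a2
    exact_mod_cast (show (g 0 : ℝ) ≤ ⌊t * J⌋₊ + ⌊mu * J⌋₊ by linarith)
  · have := m _ _ a3
    exact_mod_cast (show (⌊p1 * J⌋₊ : ℝ) ≤ g 1 by linarith)
  · have := m _ _ a4
    exact_mod_cast (show (g 1 : ℝ) ≤ ⌊p1 * J⌋₊ + ⌊mu * J⌋₊ by linarith)
  · have := m _ _ a5
    exact_mod_cast (show (⌊p2 * J⌋₊ : ℝ) ≤ g 2 by linarith)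
  · have := m _ _ a6
    exact_mod_cast (show (g 2 : ℝ) ≤ ⌊p2 * J⌋₊ + ⌊mu * J⌋₊ by linarith)
  · have h1 := m _ _ (a8 l hl)
    have h2 := fl _ hE
    have h3 := (hg l hl).2
    exact_mod_cast (show (⌊(Eb + sg + et) * J⌋₊ : ℝ) + g l + ⌊nu * J⌋₊ ≤ J by linarith)
  · have := m _ _ a9
    exact_mod_cast (show (⌊p1 * J⌋₊ : ℝ) + ⌊t3 * J⌋₊ + ⌊nu * J⌋₊ ≤ ⌊t * J⌋₊ + ⌊h1 * J⌋₊ by linarith)
  · have := m _ _ a10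
    exact_mod_cast (show (⌊p2 * J⌋₊ : ℝ) + ⌊t2 * J⌋₊ + ⌊nu * J⌋₊ ≤ ⌊t * J⌋₊ + ⌊h2 * J⌋₊ by linarith)
  · have := m _ _ a11
    exact_mod_cast (show (g' 1 : ℝ) + ⌊t3 * J⌋₊ + ⌊nu * J⌋₊ ≤ ⌊t * J⌋₊ + ⌊h1 * J⌋₊ by linarith)
  · have h1 := m _ _ a12
    have h2 := mul_le_mul_of_nonneg_left e3 hC0
    exact_mod_cast (show (Cn : ℝ) * (⌊mu * J⌋₊ + 1) ≤ ⌊nu * J⌋₊ by linarith)
  · have h1 := m _ _ a13
    have h2 := mul_le_mul_of_nonneg_left e3 hC0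
    exact_mod_cast (show (Cn : ℝ) * (⌊mu * J⌋₊ + 1) ≤ ⌊lam * J⌋₊ by linarith)
  · have h1 := m _ _ a15
    have h2 : (2 : ℝ) ≤ mu * J := by linarith
    have h3 := m _ _ a14
    have h4 : (K : ℝ) * (mu * J / 2) ≤ K * ⌊mu * J⌋₊ := mul_le_mul_of_nonneg_left (by linarith) hK0
    exact_mod_cast (show (J : ℝ) ≤ K * ⌊mu * J⌋₊ by linarith)

section

variable {m : ℕ}

/-- **An affine closed label** from a label of degree at most one. -/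
theorem afP_of {J : ℕ} {F : Fam m J} {c : ℕ → Fin m} {i w P : ℕ} {A : F.Ω → Prop} {V : Type}
    {z : PtT F → V} {z' : LnT F → V} {G : V → MvPolynomial (Option (Fin m)) ℝ}
    (h : LbP F ((range i).image c) (c i) 1 J w P A z z' G) :
    AfP F c i w P A (fun y => G (z y)) (fun s => G (z' s)) := by
  have hd : ∀ v, DepC c i (G v) := fun v b b' hn hb => h.dep v b b' hn fun k hk => by
    rw [mem_image] at hk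
    obtain ⟨l, hl, rfl⟩ := hk
    exact hb l (mem_range.1 hl)
  refine ⟨fun _ => h.deg _, fun _ => h.deg _, fun _ => hd _, fun _ => hd _, fun ω hω => ?_,
    fun ω hω => ?_⟩
  · rw [h.cls ω hω]
  · rw [h.cls ω hω]
    exact h.pos ω hω

/-- **Affine closed labels** at a later window. -/
theorem afP_bas {S : PCl m} {c : ℕ → Fin m} {i : ℕ} {b p t q : ℝ}
    (h : AffL S ((range i).image c) (c i) b p) (hb : b ≤ t) (ht : t ≤ 1) (hq : q < p) :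
    Bas S (fun J F A => ∃ (U : PtT F → MvPolynomial (Option (Fin m)) ℝ)
      (U' : LnT F → MvPolynomial (Option (Fin m)) ℝ),
      AfP F c i ⌊t * J⌋₊ ⌊q * J⌋₊ A U U') := by
  refine Bas.mono 0 (h (p - q) (by linarith)) ?_
  rintro J - F A ⟨V, z, z', G, hl⟩
  have hJ0 : (0 : ℝ) ≤ J := Nat.cast_nonneg J
  have h1 : ⌊t * J⌋₊ ≤ J := by
    calc ⌊t * J⌋₊ ≤ ⌊(J : ℝ)⌋₊ := Nat.floor_le_floor (by nlinarith)
      _ = J := Nat.floor_natCast J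
  have h2 := hl.win (Nat.floor_le_floor (mul_le_mul_of_nonneg_right hb hJ0)) h1
  have h3 := afP_of h2
  rw [sub_sub_cancel] at h3
  exact ⟨_, _, h3⟩

/-- **A nearly affine label of the place three in a class**: windows `o 0 ≤ o 1 ≤ t3`, balls at
`o 0` and `o 1`, affine labels of the place one at `o 0` and `t3`, of the place two at `o 0` and
`o 1`. -/
theorem naf_cls {D : ℕ} (h : NvOneStmt m D) : ∃ Cn : ℕ, ∀ {S : PCl m} {C₀ : ℝ} {c : ℕ → Fin m}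
    {Dr : ℕ} {Eb ηm a CB K₁ et sg : ℝ} {o r₀ : ℕ → ℝ} {lv b : ℕ → ℕ → ℝ}
    {t3 mu nu lam p1 p2 h1 h2 δ p : ℝ}, TmC S C₀ → Pool.MIC6.ActF S (c 0) →
    Set.InjOn c (Set.Iio 4) → 1 ≤ D → D ≤ Dr → 0 < K₁ →
    (∀ κ : ℝ, 0 < κ → Bas S (fun J F A => ∀ z : ℕ → ℕ → ℕ,
      (∀ k ≤ 1, ∀ i ≤ 0, r₀ k * J ≤ z k i ∧ z k i ≤ ⌊a * J⌋₊ - ⌊o k * J⌋₊) →
      ∃ (B : F.Ω → Prop) (g₀ : ℕ → ℕ → ℕ)
        (G : ℕ → PtT F → ℕ → MvPolynomial (Option (Fin m)) ℝ)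
        (H : ℕ → LnT F → ℕ → MvPolynomial (Option (Fin m)) ℝ), Sub B A ∧
        Pe F.p A ≤ K₁ * Pe F.p B ∧
        WinB F c 3 D Dr 1 0 CB a Eb ηm o (fun _ => et) (fun _ => sg) lv b κ z B g₀ G H)) →
    (∀ k ≤ 1, r₀ k + δ ≤ a - o k) → 0 ≤ o 0 → o 0 ≤ o 1 → o 1 ≤ t3 → t3 < 1 →
    Bas S (fun J F A => ∃ (U : PtT F → MvPolynomial (Option (Fin m)) ℝ)
      (U' : LnT F → MvPolynomial (Option (Fin m)) ℝ),
      AfP F c 1 ⌊o 0 * J⌋₊ ⌊p1 * J⌋₊ A U U') →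
    Bas S (fun J F A => ∃ (U : PtT F → MvPolynomial (Option (Fin m)) ℝ)
      (U' : LnT F → MvPolynomial (Option (Fin m)) ℝ),
      AfP F c 2 ⌊o 0 * J⌋₊ ⌊p2 * J⌋₊ A U U') →
    Bas S (fun J F A => ∃ (U : PtT F → MvPolynomial (Option (Fin m)) ℝ)
      (U' : LnT F → MvPolynomial (Option (Fin m)) ℝ),
      AfP F c 1 ⌊t3 * J⌋₊ ⌊h1 * J⌋₊ A U U') →
    Bas S (fun J F A => ∃ (U : PtT F → MvPolynomial (Option (Fin m)) ℝ)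
      (U' : LnT F → MvPolynomial (Option (Fin m)) ℝ),
      AfP F c 2 ⌊o 1 * J⌋₊ ⌊h2 * J⌋₊ A U U') →
    0 < δ → 0 ≤ a → 0 < mu → 0 < nu → 0 ≤ p1 → 0 ≤ p2 → p2 ≤ h2 → et ≤ mu →
    o 0 + δ ≤ lv 0 0 - sg + mu → lv 0 0 + δ ≤ o 0 + mu →
    p1 ≤ lv 0 1 - sg → lv 0 1 + δ ≤ p1 + mu → p2 ≤ lv 0 2 - sg → lv 0 2 + δ ≤ p2 + mu →
    (∀ l ≤ 3, Eb + sg + et + lv 0 l + nu ≤ 1) → 0 ≤ Eb + sg + et →
    p1 + t3 + nu + δ ≤ o 0 + h1 → p2 + o 1 + nu + δ ≤ o 0 + h2 →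
    lv 1 1 + t3 + nu + δ ≤ o 0 + h1 → Cn * mu + δ ≤ nu → Cn * mu + δ ≤ lam → δ ≤ mu →
    p - lam ≤ lv 0 3 - sg → NAf S c 3 (o 0) p lam := by
  obtain ⟨Cn, hC⟩ := h
  refine ⟨Cn, ?_⟩
  intro S C₀ c Dr Eb ηm a CB K₁ et sg o r₀ lv b t3 mu nu lam p1 p2 h1 h2 δ p htm hact hinj hD hDr
    hK₁ hW har ho0 ho1 ho2 ht3 hU hV hU3 hV2 hδ ha hmu hnu hp1 hp2 hph het a1 a2 a3 a4 a5 a6 a8 hE
    a9 a10 a11 a12 a13 a15 hp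
  have hC0 : (0 : ℝ) ≤ Cn := Nat.cast_nonneg Cn
  obtain ⟨K, hK⟩ := exists_nat_ge (2 / mu)
  rw [div_le_iff₀ hmu] at hK
  have hK0 : (0 : ℝ) ≤ K := Nat.cast_nonneg K
  have hCK : (0 : ℝ) < Cn * (K + 1) + 1 := by positivity
  obtain ⟨κ, hκ⟩ : ∃ κ : ℝ, κ = 1 / (Cn * (K + 1) + 1) := ⟨_, rfl⟩
  have hκ0 : 0 < κ := by rw [hκ]; positivity
  have hκ1 : κ * (Cn * (K + 1)) ≤ 1 := by
    rw [hκ, div_mul_eq_mul_div, one_mul, div_le_one hCK]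
    linarith
  obtain ⟨x, hx⟩ : ∃ x : ℝ, x = min mu (1 - t3) := ⟨_, rfl⟩
  have hx0 : 0 < x := by rw [hx]; exact lt_min hmu (by linarith)
  have hx1 : x ≤ mu := by rw [hx]; exact min_le_left _ _
  have hx2 : x ≤ 1 - t3 := by rw [hx]; exact min_le_right _ _
  obtain ⟨ψ, hψe⟩ : ∃ ψ : ℝ, ψ = x / (8 * (Cn + 1)) := ⟨_, rfl⟩
  have hψ : 0 < ψ := by rw [hψe]; positivity
  have hψ1 : Cn * ψ ≤ x / 8 := by
    have h1 : (Cn + 1) * ψ = x / 8 := by rw [hψe]; field_simp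
    linarith
  obtain ⟨J₁, hJ₁⟩ := exists_nat_ge ((Cn + 4) / δ + 8 * (Cn + 4) / x)
  have hbs := bas_part (((((tms_bas htm hψ).and (Pool.NVA91.fre_act hact D mu κ hmu hκ0)).and
    (Pool.NVA91.fre_tm htm D (o 0) mu κ ho0 (by linarith) hmu hκ0)).and (hU.and hV)).and
    (hU3.and hV2)) hK₁
  refine ⟨K₁ * (Cn + 1), D, by positivity, Bas.mono J₁ ((hW κ hκ0).and hbs) ?_⟩
  rintro J hJ F A ⟨hA, hB⟩
  have hJ0 : (0 : ℝ) ≤ J := Nat.cast_nonneg J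
  have hJR : (Cn + 4) / δ + 8 * (Cn + 4) / x ≤ (J : ℝ) := hJ₁.trans (by exact_mod_cast hJ)
  have q1 : 0 < (Cn + 4) / δ := by positivity
  have q2 : 0 < 8 * (Cn + 4) / x := by positivity
  have hJδ : (Cn : ℝ) + 4 ≤ δ * J := by
    have : (Cn + 4) / δ ≤ (J : ℝ) := by linarith
    rw [div_le_iff₀ hδ] at this
    linarith
  have hJx : 8 * ((Cn : ℝ) + 4) ≤ x * J := by
    have : 8 * (Cn + 4) / x ≤ (J : ℝ) := by linarith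
    rw [div_le_iff₀ hx0] at this
    linarith
  obtain ⟨B, g₀, G, H, b1, b2, W⟩ := hA (fun k _ => ⌊a * J⌋₊ - ⌊o k * J⌋₊) (fun k hk i _ => by
    refine ⟨?_, le_rfl⟩
    have h1 := har k hk
    have h2 : 0 ≤ o k := by
      rcases Nat.lt_or_ge k 1 with h | h
      · obtain rfl : k = 0 := by omega
        exact ho0
      · obtain rfl : k = 1 := by omega
        linarith
    have h3 := mul_le_mul_of_nonneg_right h1 hJ0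
    have h4 := Nat.floor_le (show 0 ≤ o k * J by positivity)
    have h5 := Nat.lt_floor_add_one (a * J)
    have h6 : r₀ k * J + ⌊o k * J⌋₊ ≤ ⌊a * J⌋₊ := by linarith
    rcases le_total ⌊o k * J⌋₊ ⌊a * J⌋₊ with h7 | h7
    · rw [Nat.cast_sub h7]
      linarith
    · have h8 : (⌊a * J⌋₊ : ℝ) ≤ ⌊o k * J⌋₊ := by exact_mod_cast h7
      have h9 : (0 : ℝ) ≤ ((⌊a * J⌋₊ - ⌊o k * J⌋₊ : ℕ) : ℝ) := Nat.cast_nonneg _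
      linarith)
  obtain ⟨⟨⟨⟨hT, hF1⟩, hF2⟩, ⟨U, U', hU⟩, ⟨V, V', hV⟩⟩, ⟨U3, U3', hU3⟩, ⟨V2, V2', hV2⟩⟩ :=
    hB B b1 b2
  obtain ⟨hBp, hT⟩ := hT
  have E0 := W.ev 0 (by norm_num)
  have E1 := W.ev 1 le_rfl
  obtain ⟨n1, n2, n3, n4, n5, n6, n7, n8, n9, n10, n11, n12, n13⟩ := nv_nat (g := g₀ 0)
    (g' := g₀ 1) hJδ ho0 (by linarith) (by linarith) hmu hnu hp1 hp2
    (fun l hl => W.sds 0 (by norm_num) l hl) (W.sds 1 le_rfl 1 (by norm_num)).2 a1 a2 a3 a4 a5 a6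
    a8 hE a9 a10 a11 a12 a13 hK a15
  have hmono : ∀ u v : ℝ, u ≤ v → ⌊u * J⌋₊ ≤ ⌊v * J⌋₊ := fun u v huv =>
    Nat.floor_le_floor (mul_le_mul_of_nonneg_right huv hJ0)
  have ht3J : ⌊t3 * J⌋₊ ≤ J := by
    calc ⌊t3 * J⌋₊ ≤ ⌊(J : ℝ)⌋₊ := Nat.floor_le_floor (by nlinarith)
      _ = J := Nat.floor_natCast J
  have hl2 : (1 : ℝ) / 2 ≤ Real.log 2 := by
    have := Real.log_two_gt_d9
    linarith
  have f1 := Nat.floor_le (show 0 ≤ t3 * J by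
    have : 0 ≤ t3 := by linarith
    positivity)
  have f2 := Nat.lt_floor_add_one (mu * J)
  have f3 := mul_le_mul_of_nonneg_right hψ1 hJ0
  have f4 := mul_le_mul_of_nonneg_right hx1 hJ0
  have f5 := mul_le_mul_of_nonneg_right hx2 hJ0
  obtain ⟨B', c1, c2, c3⟩ := hC hBp (e := ⌊(Eb + sg + et) * J⌋₊) (e2 := ⌊(Eb + sg + et) * J⌋₊)
    (h := ⌊et * J⌋₊) (Dr := Dr) (k := ⌊mu * J⌋₊) (n := ⌊nu * J⌋₊) (K := K) (g := g₀ 0)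
    (g' := g₀ 1) (κ := κ) (κ₀ := κ) (θ := ψ * J) hinj hD hDr (hmono _ _ ho1) (hmono _ _ ho2)
    ht3J E0.ball E0.cls E0.relb E1.ball E1.relb hU hV hU3 hV2 (by positivity) hT (by
      have h1 : (J : ℝ) * (1 - t3) ≤ J - ⌊t3 * J⌋₊ := by linarith
      have h2 : x * J ≤ (J : ℝ) - ⌊t3 * J⌋₊ := by linarith
      have h3 : x * J * (1 / 2) ≤ ((J : ℝ) - ⌊t3 * J⌋₊) * Real.log 2 :=
        mul_le_mul h2 hl2 (by norm_num) (by linarith)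
      linarith) (by linarith) hF1 hF2 (hmono _ _ het) n1 n2 n3 n4 n5 n6 (hmono _ _ hph) n7 n8 n9
      n10 n11 n13 hκ1 hκ1
  refine ⟨B', g₀ 0, _, G 0, H 0, fun ω hω => b1 ω (c1 ω hω), ?_, E0.ball.sub c1, E0.cls.sub c1,
    ?_, fun ω hω => ?_⟩
  · have h1 : (Cn : ℝ) * Pe F.p B' ≤ (Cn + 1) * Pe F.p B' :=
      mul_le_mul_of_nonneg_right (by linarith) (Pe_nonneg F.isLaw _)
    calc Pe F.p A ≤ K₁ * Pe F.p B := b2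
      _ ≤ K₁ * ((Cn + 1) * Pe F.p B') := mul_le_mul_of_nonneg_left (c2.trans h1) hK₁.le
      _ = K₁ * (Cn + 1) * Pe F.p B' := by ring
  · have h1 := (W.sds 0 (by norm_num) 3 le_rfl).1
    have h2 := mul_le_mul_of_nonneg_right hp hJ0
    exact h2.trans h1
  · obtain ⟨Q, hQ1, hQ2, hQ3⟩ := c3 ω hω
    refine ⟨Q, hQ1, hQ2, fun b' hb' => (hQ3 b' hb').trans ?_⟩
    exact div_le_div_of_nonneg_right (pow_le_pow_right₀ (by norm_num) n12) (by positivity)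

end

end Pool.NV36
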